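import Pool.Agent.H52.CV.Uniform

/-!
# Coverings of the digit changes of algebraic numbers, uniformly in the base and in the length

Let `x` be a real algebraic irrational number, `y = (u x + v) / w` with integers `u, v, w`, and let
`y = ∑ g_k b^{-k}` with integers `g_k` (the usual base `b` digits, or any other digits). Consider the
places `k` where a linear relation `q_0 g_k + … + q_m g_{k+m} = e` fails. For `q = (-1, 1)`, `e = 0`
these are the digit changes, for `q = (1)`, `e = 0` the nonzero digits, for `q = (-1, 0, …, 0, 1)`,
`e = 0` the places where the digits are not periodic with the period `m`.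

**Theorem.** The failing places between `W` and `N W` cannot be covered by fewer than
`c (log N)^3 / (log log N)^5` intervals of length `W`. Here `c > 0` and the lower bound for `N` depend
on `x` only: the theorem is uniform in the length `W ≥ 1`, in the base `b`, in the rational affine
map, in the relation and in the expansion (as long as `m ≤ log N` and the integers are at most
`b^{log N}`), provided that at most `c log N / (log log N)^2` of the primes up to `log N` divide
`b (b - 1) u (q_0 + q_1 b + … + q_m b^m)`, which is not zero. The last condition holds if this number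
is at most `exp (c' log N / (log log N)^2)`, and for most larger numbers.

For instance the digit changes up to `X` cannot be covered by fewer than
`c (log X)^3 / (log log X)^5` intervals of length `X^0.99`, whatever the digits in these intervals
are; and for all `W` there are at least `c (log N)^3 / (log log N)^5` digit changes between `W` and
`N W` with pairwise distances at least `W`, in all bases `b ≤ exp (c' log N / (log log N)^2)`. For
fixed `b`, a fixed relation and `W = 1` this is an earlier Lean result.

Proof. Put `U_R = ∑_{k ≤ R} g_k b^{R-k}` (up to a factor and a linear combination of shifts). The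
sequence `U_{W j}`, `j ≥ 0`, is within a bounded distance of `(b^W)^j t` for an algebraic number `t`,
with the same bound for all `W`, and `U_{W (j+1)} ≠ b^W U_{W j}` only if the block
`(W j, W (j + 1)]` contains a failing place. So one needs the bound of the case `W = 1` for such
sequences, uniformly in the base `b^W` and in the multiplier in `t = k x`. The base entered the proof
through the bound for the number of the places where the truncated relations `F(U) = 0` fail, which
used the sum of the absolute values of the coefficients. Here these sets are bounded by means of the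
number of the coefficients different from zero (`card_S_le`, `cardFV`): the partial sum of a
polynomial at `1 / B` with a small value there is an integer, which is less than `1` in absolute
value unless there is a nonzero coefficient among the next few ones, and this is uniform in `B`. The
multiplier `k` changes the minimal polynomial `f` to `k^d f (X / k)`, whose reduction modulo a prime
which does not divide `k` has the same properties as that of `f`.
-/

set_option autoImplicit false

namespace Pool.Agent.Results.MP_f2f914_nt.CoveringDigitChanges

open Finset

/-- the primes `p ≤ y` which divide the integer `n` -/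
noncomputable def smallPrimes (y : ℝ) (n : ℤ) : Finset ℕ :=
  (range (⌊y⌋₊ + 1)).filter (fun p => p.Prime ∧ (p : ℤ) ∣ n)

/-- **Coverings of the digit changes by intervals of length `W`, uniformly in all parameters.** -/
theorem result (x : ℝ) (halg : IsAlgebraic ℚ x) (hirr : Irrational x) :
    ∃ c : ℝ, 0 < c ∧ ∃ N₀ : ℕ, ∀ N b W L m : ℕ, N₀ ≤ N → 2 ≤ b → 1 ≤ W →
      (L : ℝ) ≤ Real.log N → m ≤ L →
      ∀ (u v w e : ℤ) (q g : ℕ → ℤ), u ≠ 0 → w ≠ 0 →
      |u| ≤ (b : ℤ) ^ L → |w| ≤ (b : ℤ) ^ L → |e| ≤ (b : ℤ) ^ L →
      (∀ j, j ≤ m → |q j| ≤ (b : ℤ) ^ L) → (∀ k, |g k| ≤ (b : ℤ) ^ L) →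
      HasSum (fun k : ℕ => (g k : ℝ) / (b : ℝ) ^ k) ((u * x + v) / w) →
      ∑ j ∈ range (m + 1), q j * (b : ℤ) ^ j ≠ 0 →
      ((smallPrimes (Real.log N)
        (b * (b - 1) * u * ∑ j ∈ range (m + 1), q j * (b : ℤ) ^ j)).card : ℝ) ≤
          c * Real.log N / (Real.log (Real.log N)) ^ 2 →
      ∀ T : Finset ℕ,
        (∀ k, W < k → k ≤ N * W → ∑ j ∈ range (m + 1), q j * g (k + j) ≠ e →
          ∃ t ∈ T, t ≤ k ∧ k < t + W) →
        c * (Real.log N) ^ 3 / (Real.log (Real.log N)) ^ 5 ≤ (T.card : ℝ) := by
  obtain ⟨c, hc, N₀, h⟩ := Pool.Agent.H52.CV.uniform x halg hirr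
  refine ⟨c, hc, N₀, fun N b W L m hN hb hW hL hm u v w e q g hu0 hw0 hu hw he hq hg hsum hQ hfew T
    hT => h N hN b hb L hL u v w hu0 hu hw0 hw m q e g hm hq he hg hsum hQ ?_ W hW T hT⟩
  have h1 : ((b : ℤ) * (((b : ℤ) - 1) * u * ∑ j ∈ range (m + 1), q j * (b : ℤ) ^ j)) =
      b * (b - 1) * u * ∑ j ∈ range (m + 1), q j * (b : ℤ) ^ j := by ring
  rw [h1]
  exact hfew

end Pool.Agent.Results.MP_f2f914_nt.CoveringDigitChanges
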