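import Mathlib
import Pool.Agent.H41.NL.L

/-! # Borel's conjecture relative to one sparse number -/

set_option autoImplicit false

open Filter Topology

namespace Pool.Agent.Results.MP_f2f914_nt.RelativeBorel

/-- `x` is normal in base `r`: the sequence `x r ^ n`, `n ≥ 1`, is equidistributed modulo one. -/
def NormalIn (r : ℕ) (x : ℝ) : Prop :=
  ∀ a b : ℝ, 0 ≤ a → a < b → b ≤ 1 →
    Tendsto (fun N : ℕ =>
      ((((Finset.Icc 1 N).filter (fun n : ℕ => a ≤ Int.fract (x * (r : ℝ) ^ n) ∧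
        Int.fract (x * (r : ℝ) ^ n) < b)).card : ℝ) / (N : ℝ))) atTop (nhds (b - a))

/-- The number with the base `b` digit one at the place `j + 1` for the `j` in `A` and the digit zero
at all other places. -/
noncomputable def ones (b : ℕ) (A : Set ℕ) : ℝ := ∑' j, A.indicator (fun j => 1 / (b : ℝ) ^ (j + 1)) j

lemma card_shift (P : ℕ → Prop) [DecidablePred P] (N : ℕ) :
    ((Finset.Icc 1 N).filter P).card = ((Finset.range N).filter fun n => P (n + 1)).card := by
  have h1 : (Finset.Icc 1 N).filter P = ((Finset.range N).filter fun n => P (n + 1)).image (fun n => n + 1) := by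
    ext n
    rw [Finset.mem_filter, Finset.mem_Icc, Finset.mem_image]
    constructor
    · rintro ⟨⟨h1, h2⟩, h3⟩
      refine ⟨n - 1, ?_, by omega⟩
      rw [Finset.mem_filter, Finset.mem_range]
      have h4 : n - 1 + 1 = n := by omega
      rw [h4]
      exact ⟨by omega, h3⟩
    · rintro ⟨m, h1, rfl⟩
      rw [Finset.mem_filter, Finset.mem_range] at h1
      exact ⟨⟨by omega, by omega⟩, h1.2⟩
  rw [h1, Finset.card_image_of_injective _ (add_left_injective 1)]

lemma normal_iff (r : ℕ) (hr : 2 ≤ r) (x : ℝ) : NormalIn r x ↔ H41.RM.WW r x := by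
  have hr0 : ((r : ℕ) : ℚ) ≠ 0 := by exact_mod_cast (by omega : r ≠ 0)
  have key : H41.RM.WW r x ↔ Pool.Agent.H534R3.UDist.UD fun n => (r : ℝ) ^ n * (r * x) := by
    have h1 := H41.RM.WW_rat_iff r hr x r hr0
    push_cast at h1
    rw [← h1]
    exact H41.RM.WW_iff_UD r (r * x)
  have hcount : ∀ a b : ℝ, ∀ N : ℕ, ((Finset.Icc 1 N).filter (fun n : ℕ => a ≤ Int.fract (x * (r : ℝ) ^ n) ∧
      Int.fract (x * (r : ℝ) ^ n) < b)).card = ((Finset.range N).filter
        (fun n => a ≤ Int.fract ((r : ℝ) ^ n * (r * x)) ∧ Int.fract ((r : ℝ) ^ n * (r * x)) < b)).card := by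
    intro a b N
    rw [card_shift]
    congr 1
    refine Finset.filter_congr fun n _ => ?_
    have h2 : x * (r : ℝ) ^ (n + 1) = (r : ℝ) ^ n * (r * x) := by ring
    rw [h2]
  rw [key]
  constructor
  · intro h s t hs hst ht
    rcases hst.eq_or_lt with h1 | h1
    · subst h1
      rw [sub_self]
      refine tendsto_const_nhds.congr fun N => ?_
      rw [Finset.filter_false_of_mem]
      · simp
      · intro n _ h2
        linarith [h2.1, h2.2]
    · refine (h s t hs h1 ht).congr fun N => ?_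
      rw [hcount]
  · intro h a b ha hab hb
    refine (h a b ha hab.le hb).congr fun N => ?_
    rw [hcount]

lemma nonliouville (x : ℝ) (h : IsAlgebraic ℚ x) : ¬ Liouville x := by
  intro hL
  exact hL.transcendental ((IsFractionRing.isAlgebraic_iff ℤ ℚ ℝ).2 h)

lemma not_normal_rat (b : ℕ) (q : ℚ) : ¬ H41.RM.WW b (q : ℝ) := by
  intro h
  have h1 := h (q.den : ℤ) (by exact_mod_cast q.den_nz)
  have h2 : ∀ᶠ N : ℕ in atTop, H41.SW.avg (H41.SW.ex b q (q.den : ℤ)) N = 1 := by
    filter_upwards [eventually_gt_atTop 0] with N hN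
    unfold H41.SW.avg
    have h3 : ∀ n ∈ Finset.range N, H41.SW.ex b q (q.den : ℤ) n = 1 := by
      intro n _
      unfold H41.SW.ex H41.SW.e
      rw [Complex.exp_eq_one_iff]
      refine ⟨(b : ℤ) ^ n * q.num, ?_⟩
      have h4 : ((q.den : ℤ) : ℝ) * ((b : ℝ) ^ n * (q : ℝ)) = (((b : ℤ) ^ n * q.num : ℤ) : ℝ) := by
        have h5 : (q : ℝ) * q.den = q.num := by
          have := Rat.mul_den_eq_num q
          exact_mod_cast this
        push_cast
        linear_combination ((b : ℝ) ^ n) * h5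
      rw [h4]
      push_cast
      ring
    rw [Finset.sum_congr rfl h3]
    have h6 : (N : ℂ) ≠ 0 := by exact_mod_cast hN.ne'
    simp [h6]
  have h3 : Tendsto (H41.SW.avg (H41.SW.ex b q (q.den : ℤ))) atTop (𝓝 1) :=
    tendsto_const_nhds.congr' (h2.mono fun N hN => hN.symm)
  exact one_ne_zero (tendsto_nhds_unique h3 h1)

lemma ones_eq (b : ℕ) (A : Set ℕ) : ones b A = H41.NL.on b A := rfl

/-- **Theorem.** There is a set `A` of natural numbers with at most `N log log N / log N` elements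
below `N` (for large `N`) such that for every base `b ≥ 2` the number `β = ∑ b ^ (-j-1)`, the sum over
the `j` in `A`, has these properties.
(1) `β` is transcendental.
(2) Every real number which is algebraic over `ℚ(β)` is normal in every base, except possibly the numbers
`p + q β` with `p` algebraic and `q` rational.
(3) `p + q β` with `p` algebraic and `q ≠ 0` rational is normal in every base which is multiplicatively
independent of `b`.
(4) For all rational `q` and all real `y`, `y + q β` is normal in base `b` if and only if `y` is.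
(5) Some irrational algebraic number is normal in base `b` if and only if some number `p + q β` with `p`
algebraic and `q` rational is.
(6) All irrational algebraic numbers are normal in base `b` if and only if all real numbers algebraic over
`ℚ(β)`, which are not of the form `r + q β` with rational `r`, `q`, are normal in base `b`. -/
theorem result : ∃ A : Set ℕ,
    (∀ᶠ N : ℕ in atTop, ((A ∩ Set.Iio N).ncard : ℝ) ≤ N * Real.log (Real.log N) / Real.log N) ∧
    ∀ b : ℕ, 2 ≤ b →
      Transcendental ℚ (ones b A) ∧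
      (∀ y : ℝ, IsAlgebraic (IntermediateField.adjoin ℚ {ones b A}) y →
        (¬ ∃ (p : ℝ) (q : ℚ), IsAlgebraic ℚ p ∧ y = p + q * ones b A) → ∀ r : ℕ, 2 ≤ r → NormalIn r y) ∧
      (∀ (p : ℝ) (q : ℚ), IsAlgebraic ℚ p → q ≠ 0 →
        ∀ r : ℕ, 2 ≤ r → (∀ m n : ℕ, 0 < m → 0 < n → b ^ m ≠ r ^ n) → NormalIn r (p + q * ones b A)) ∧
      (∀ (y : ℝ) (q : ℚ), NormalIn b (y + q * ones b A) ↔ NormalIn b y) ∧
      ((∃ x : ℝ, Irrational x ∧ IsAlgebraic ℚ x ∧ NormalIn b x) ↔
        ∃ (p : ℝ) (q : ℚ), IsAlgebraic ℚ p ∧ NormalIn b (p + q * ones b A)) ∧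
      ((∀ x : ℝ, Irrational x → IsAlgebraic ℚ x → NormalIn b x) ↔
        ∀ y : ℝ, IsAlgebraic (IntermediateField.adjoin ℚ {ones b A}) y →
          (¬ ∃ r q : ℚ, y = r + q * ones b A) → NormalIn b y) := by
  obtain ⟨T, hT⟩ : ∃ T : Set (ℝ × ℝ), T = {x : ℝ | IsAlgebraic ℚ x} ×ˢ {x : ℝ | IsAlgebraic ℚ x} :=
    ⟨_, rfl⟩
  have hTc : T.Countable := by
    rw [hT]
    exact (Algebraic.countable ℚ ℝ).prod (Algebraic.countable ℚ ℝ)
  obtain ⟨A, hA1, hA2, hA3⟩ := H41.NL.exists_gen (fun A => (∀ z ∈ T, ∀ b : ℕ, 2 ≤ b → ∀ q : ℕ, 2 ≤ q →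
      z.1 ≠ 0 → ((∀ m n : ℕ, 0 < m → 0 < n → b ^ m ≠ q ^ n) ∨ (Irrational z.1 ∧ ¬ Liouville z.1)) →
      H41.RM.WW q (z.2 + z.1 * H41.NL.on b A)) ∧
      ∀ b : ℕ, 2 ≤ b → Transcendental H41.NL.kQ (H41.NL.on b A) ∧
        ∀ y : ℝ, IsAlgebraic (IntermediateField.adjoin H41.NL.kQ {H41.NL.on b A}) y →
        (∃ p q : ℝ, IsAlgebraic H41.NL.kQ p ∧ IsAlgebraic H41.NL.kQ q ∧ y = p + q * H41.NL.on b A) ∨
          H41.NL.AW y)
    (fun Ω mΩ P hP A hA hind hp => by
      filter_upwards [H41.NL.linear_on P A hA hind hp T hTc,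
        H41.NL.relative_on P A hA hind 1 (H41.NL.pp_hq P A hp) H41.NL.kQ] with ω h1 h2
      exact ⟨h1, h2⟩)
  refine ⟨A, hA1, ?_⟩
  have hsp : H41.RM.Sparse A := H41.RM.sparse_of_count A hA1
  intro b hb
  have hnr : ∀ q : ℚ, ¬ NormalIn b (q : ℝ) := fun q h => not_normal_rat b q ((normal_iff b hb _).1 h)
  have htr : Transcendental ℚ (ones b A) := by
    intro halg
    apply (hA3 b hb).1
    obtain ⟨P, hP0, hP⟩ := halg
    refine ⟨P.map (algebraMap ℚ H41.NL.kQ), (Polynomial.map_ne_zero_iff (RingHom.injective _)).2 hP0, ?_⟩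
    rw [Polynomial.aeval_map_algebraMap]
    exact hP
  have p4 : ∀ (y : ℝ) (q : ℚ), NormalIn b (y + q * ones b A) ↔ NormalIn b y := by
    intro y q
    rw [normal_iff b hb, normal_iff b hb]
    exact H41.RM.WW_sparse_iff b hb A hsp y q
  have p2 : ∀ y : ℝ, IsAlgebraic (IntermediateField.adjoin ℚ {ones b A}) y →
        (¬ ∃ (p : ℝ) (q : ℚ), IsAlgebraic ℚ p ∧ y = p + q * ones b A) → ∀ r : ℕ, 2 ≤ r → NormalIn r y := by
    intro y hy hne r hr
    rcases (hA3 b hb).2 y (H41.NL.alg_adjoin _ y hy) with ⟨p, q, hp, hq, hpq⟩ | h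
    · have hp' := H41.NL.alg_kQ p hp
      have hq' := H41.NL.alg_kQ q hq
      have hirr : Irrational q := by
        rintro ⟨q0, hq0⟩
        exact hne ⟨p, q0, hp', by rw [hpq, ← hq0]; rfl⟩
      rw [normal_iff r hr, hpq]
      exact hA2 (q, p) (by rw [hT]; exact ⟨hq', hp'⟩) b hb r hr hirr.ne_zero
        (Or.inr ⟨hirr, nonliouville q hq'⟩)
    · rw [normal_iff r hr]
      exact h r hr
  have p3 : ∀ (p : ℝ) (q : ℚ), IsAlgebraic ℚ p → q ≠ 0 →
        ∀ r : ℕ, 2 ≤ r → (∀ m n : ℕ, 0 < m → 0 < n → b ^ m ≠ r ^ n) → NormalIn r (p + q * ones b A) := by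
    intro p q hp hq r hr hdep
    rw [normal_iff r hr]
    have hq' : (q : ℝ) ≠ 0 := by exact_mod_cast hq
    exact hA2 ((q : ℝ), p) (by rw [hT]; exact ⟨isAlgebraic_algebraMap q, hp⟩) b hb r hr hq' (Or.inl hdep)
  refine ⟨htr, p2, p3, p4, ?_, ?_⟩
  · constructor
    · rintro ⟨x, _, hx, hn⟩
      refine ⟨x, 0, hx, ?_⟩
      rw [p4]
      exact hn
    · rintro ⟨p, q, hp, hn⟩
      rw [p4] at hn
      refine ⟨p, ?_, hp, hn⟩
      rintro ⟨q, rfl⟩
      exact hnr q hn
  · constructor
    · intro h y hy hne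
      by_cases hform : ∃ (p : ℝ) (q : ℚ), IsAlgebraic ℚ p ∧ y = p + q * ones b A
      · obtain ⟨p, q, hp, hpq⟩ := hform
        have hirr : Irrational p := by
          rintro ⟨r, hr⟩
          exact hne ⟨r, q, by rw [hpq, ← hr]⟩
        rw [hpq, p4]
        exact h p hirr hp
      · exact p2 y hy hform b hb
    · intro h x hirr hx
      refine h x ?_ ?_
      · exact hx.tower_top _
      · rintro ⟨r, q, hrq⟩
        by_cases hq : q = 0
        · rw [hq] at hrq
          push_cast at hrq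
          rw [zero_mul, add_zero] at hrq
          exact hirr ⟨r, hrq.symm⟩
        · apply htr
          have hq' : (q : ℝ) ≠ 0 := by exact_mod_cast hq
          have e1 : ones b A = (x - r) * (q : ℝ)⁻¹ := by
            rw [hrq]
            field_simp
            ring
          rw [e1]
          exact (hx.sub (isAlgebraic_algebraMap r)).mul (isAlgebraic_algebraMap q).inv

end Pool.Agent.Results.MP_f2f914_nt.RelativeBorel
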