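import Pool.Agent.H17.GS.Pui

/-!
# The digits of the `n`-th roots of a fixed number, and of the values of analytic families

Let `a > 0` be a fixed algebraic number, `a ≠ 1`. Its roots `a ^ (1 / n)` are algebraic numbers of
unbounded degree with `a ^ (1 / n) = 1 + log a / n + ...`, so that the first `log_b n` digits in base `b`
after the point are forced. We show that the digits behave like random digits from there on: for all but at
most `N exp (-(log N) ^ (3 / 5))` of the integers `N < n ≤ 2 N`, for all bases `b ≥ 2`, every window of at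
least `(log N) ^ (1 - γ)` places which starts at a place `u` with `b ^ u ≥ n` and ends before the place
`(log N) ^ (1 + γ) / log b` has discrepancy at most `ε`. (See `nth_roots` below.)

The general theorem concerns all the numbers `p n + β + ω n ^ ρ h (n ^ (-τ))`, where `ρ` is real and not one
of `0, 1, 2, ...` (it may be negative), `τ > 0`, `h` is real analytic at `0` with `h 0 ≠ 0`, the `p n` are
arbitrary integers, and `β` and `ω ≠ 0` are real; it is uniform in `ω`, `β` and `p`. By Puiseux's theorem the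
values at integers of the algebraic functions whose polynomial part at infinity has integral coefficients up to
the constant one are of this form: for instance the real roots of `x ^ d - n x ^ (d - 1) - a x ^ (d - 2) - ... `,
or the numbers `√(1 + 1 / n)`.

Proof. The products `∏_{i ≤ k} (1 + λ cos (2 π (h b ^ (u + i) x_n + φ)))` with `k ≤ 2 (log N) ^ (1 - 3 γ)` have
mean value at most `2` over `N < n ≤ 2 N`; this follows from the bound `N exp (-2 (log N) ^ (1 - 3 γ))` for the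
exponential sums `∑ e (F f (n))` for all holomorphic functions `f` close to `a z ^ ρ`, whose Taylor coefficients
at `n` are controlled by Cauchy's estimates. For small `F` this is the Kusmin-Landau inequality, for large
`F` (up to `exp ((log N) ^ (1 + γ))`) it is the method of Vinogradov and Korobov with about `(log N) ^ γ`
variables.
-/

set_option autoImplicit false

namespace Pool.Agent.Results.MP_f2f914_nt.RootsOfAFixedNumber

/-- The discrepancy of the points `y b ^ i`, `u < i ≤ v`, modulo one is at most `ε`: for all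
intervals `[α, β)` in `[0, 1]` the number of `u < i ≤ v` for which the fractional part of `y b ^ i` lies
in `[α, β)` differs from `(β - α) (v - u)` by at most `ε (v - u)`. -/
def DiscrepancyAtMost (y : ℝ) (b u v : ℕ) (ε : ℝ) : Prop :=
  ∀ α β : ℝ, 0 ≤ α → α < β → β ≤ 1 →
    |(({i : ℕ | u < i ∧ i ≤ v ∧ α ≤ Int.fract (y * (b : ℝ) ^ i) ∧
      Int.fract (y * (b : ℝ) ^ i) < β}.ncard : ℕ) : ℝ) - (β - α) * ((v : ℝ) - u)| ≤ ε * ((v : ℝ) - u)

/-- There is an absolute constant `γ > 0` such that for all real `ρ` which are not natural numbers, all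
`τ > 0`, all functions `h` which are real analytic at `0` with `h 0 ≠ 0`, and all `ε > 0` there is an `N₀` such
that for all `N ≥ N₀`, all real `ω ≠ 0` with `|ω| ≤ exp ((log N) ^ (1 + γ))`, all real `β` and all integers
`p n`: for all but at most `N exp (-(log N) ^ (3 / 5))` of the integers `N < n ≤ 2 N` the number
`y = p n + β + ω n ^ ρ h (n ^ (-τ))` has this property: for all bases `b ≥ 2` and all `u`, `v` with
`(log N) ^ (1 - γ) ≤ v - u`, `v log b ≤ (log N) ^ (1 + γ)` and `1 ≤ |ω| n ^ ρ b ^ u` the discrepancy of the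
points `y b ^ i`, `u < i ≤ v`, modulo one is at most `ε`. -/
theorem result : ∃ γ : ℝ, 0 < γ ∧ ∀ ρ : ℝ, (∀ m : ℕ, ρ ≠ m) → ∀ τ : ℝ, 0 < τ →
    ∀ h : ℝ → ℝ, AnalyticAt ℝ h 0 → h 0 ≠ 0 → ∀ ε : ℝ, 0 < ε → ∃ N₀ : ℕ, ∀ N : ℕ, N₀ ≤ N →
    ∀ ω : ℝ, ω ≠ 0 → |ω| ≤ Real.exp ((Real.log N) ^ (1 + γ)) → ∀ (β : ℝ) (p : ℕ → ℤ),
      (({n : ℕ | N < n ∧ n ≤ 2 * N ∧ ∃ b u v : ℕ, 2 ≤ b ∧ (Real.log N) ^ (1 - γ) ≤ (v : ℝ) - u ∧
        v * Real.log b ≤ (Real.log N) ^ (1 + γ) ∧ 1 ≤ |ω| * (n : ℝ) ^ ρ * (b : ℝ) ^ u ∧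
        ¬ DiscrepancyAtMost (p n + β + ω * ((n : ℝ) ^ ρ * h ((n : ℝ) ^ (-τ)))) b u v ε}.ncard : ℕ) : ℝ) ≤
          N * Real.exp (-(Real.log N) ^ (3 / 5 : ℝ)) := by
  obtain ⟨γ, hγ, hmain⟩ := Pool.Agent.H17.GS.puiseux
  refine ⟨γ, hγ, ?_⟩
  intro ρ hρ τ hτ h hh h0 ε hε
  obtain ⟨N₀, hN₀⟩ := hmain ρ hρ τ hτ h hh h0 ε hε
  refine ⟨N₀, fun N hN ω hω hωle β p => ?_⟩
  have h1 := hN₀ N hN ω hω hωle β p
  refine le_trans (le_of_eq ?_) h1
  have e1 : ∀ (n : ℕ) (b u : ℕ), |ω| * (n : ℝ) ^ ρ * (b : ℝ) ^ u = (b : ℝ) ^ u * (|ω| * (n : ℝ) ^ ρ) := by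
    intro n b u
    ring
  have e2 : ∀ n : ℕ, (p n : ℝ) + β + ω * ((n : ℝ) ^ ρ * h ((n : ℝ) ^ (-τ))) =
      p n + (ω * ((n : ℝ) ^ ρ * h ((n : ℝ) ^ (-τ))) + β) := by
    intro n
    ring
  simp only [e1, e2]
  rfl

/-- Special case: the `n`-th roots `a ^ (1 / n)` of a fixed real number `a > 0`, `a ≠ 1`. -/
theorem nth_roots : ∃ γ : ℝ, 0 < γ ∧ ∀ a : ℝ, 0 < a → a ≠ 1 → ∀ ε : ℝ, 0 < ε → ∃ N₀ : ℕ,
    ∀ N : ℕ, N₀ ≤ N →
      (({n : ℕ | N < n ∧ n ≤ 2 * N ∧ ∃ b u v : ℕ, 2 ≤ b ∧ (Real.log N) ^ (1 - γ) ≤ (v : ℝ) - u ∧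
        v * Real.log b ≤ (Real.log N) ^ (1 + γ) ∧ n ≤ b ^ u ∧
        ¬ DiscrepancyAtMost (a ^ (1 / n : ℝ)) b u v ε}.ncard : ℕ) : ℝ) ≤
          N * Real.exp (-(Real.log N) ^ (3 / 5 : ℝ)) := by
  obtain ⟨γ, hγ, hmain⟩ := result
  refine ⟨γ, hγ, ?_⟩
  intro a ha ha1 ε hε
  set F : ℝ → ℝ := fun y => a ^ y with hF
  have hFa : AnalyticAt ℝ F 0 := by
    have h1 : F = fun y => Real.exp (Real.log a * y) := by
      funext y
      rw [hF]
      exact Real.rpow_def_of_pos ha y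
    rw [h1]
    exact (analyticAt_const.mul analyticAt_id).rexp
  have hFd : deriv F 0 = Real.log a := by
    have h1 : HasDerivAt F (Real.log a * 1 * a ^ (0 : ℝ)) 0 :=
      (hasDerivAt_id (0 : ℝ)).const_rpow ha
    rw [h1.deriv]
    simp
  have hda : AnalyticAt ℝ (dslope F 0) 0 := by
    obtain ⟨q, hq⟩ := hFa
    exact hq.has_fpower_series_dslope_fslope.analyticAt
  have hd0 : dslope F 0 0 ≠ 0 := by
    rw [dslope_same, hFd]
    exact Real.log_ne_zero_of_pos_of_ne_one ha ha1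
  obtain ⟨N₀, hN₀⟩ := hmain (-1) (fun m h => by
      have : (0 : ℝ) ≤ m := Nat.cast_nonneg m
      linarith) 1 one_pos (dslope F 0) hda hd0 ε hε
  refine ⟨N₀, fun N hN => ?_⟩
  have h1 := hN₀ N hN 1 one_ne_zero (by
    rw [abs_one]
    exact Real.one_le_exp (Real.rpow_nonneg (Real.log_natCast_nonneg N) _)) 0 (fun _ => 1)
  refine le_trans ?_ h1
  have hfin : {n : ℕ | N < n ∧ n ≤ 2 * N ∧ ∃ b u v : ℕ, 2 ≤ b ∧ (Real.log N) ^ (1 - γ) ≤ (v : ℝ) - u ∧
        v * Real.log b ≤ (Real.log N) ^ (1 + γ) ∧ 1 ≤ |(1 : ℝ)| * (n : ℝ) ^ (-1 : ℝ) * (b : ℝ) ^ u ∧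
        ¬ DiscrepancyAtMost (((1 : ℤ) : ℝ) + 0 + 1 * ((n : ℝ) ^ (-1 : ℝ) *
          dslope F 0 ((n : ℝ) ^ (-1 : ℝ)))) b u v ε}.Finite :=
    (Set.finite_Icc 0 (2 * N)).subset fun n hn => ⟨Nat.zero_le _, hn.2.1⟩
  refine Nat.cast_le.2 (Set.ncard_le_ncard ?_ hfin)
  rintro n ⟨a1, a2, b, u, v, a3, a4, a5, a6, a7⟩
  have hn0 : (0 : ℝ) < n := by exact_mod_cast (by omega : 0 < n)
  have hinv : (n : ℝ) ^ (-1 : ℝ) = (n : ℝ)⁻¹ := Real.rpow_neg_one _
  refine ⟨a1, a2, b, u, v, a3, a4, a5, ?_, ?_⟩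
  · rw [abs_one, one_mul, hinv, inv_mul_eq_div, le_div_iff₀ hn0, one_mul]
    exact_mod_cast a6
  · have e1 : ((1 : ℤ) : ℝ) + 0 + 1 * ((n : ℝ) ^ (-1 : ℝ) * dslope F 0 ((n : ℝ) ^ (-1 : ℝ))) =
        a ^ (1 / n : ℝ) := by
      have hne : (n : ℝ)⁻¹ ≠ 0 := (inv_pos.2 hn0).ne'
      rw [hinv, dslope_of_ne _ hne, slope_def_field, hF]
      simp only [Real.rpow_zero, sub_zero]
      rw [one_div]
      field_simp
      push_cast
      ring
    rw [e1]
    exact a7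

end Pool.Agent.Results.MP_f2f914_nt.RootsOfAFixedNumber
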