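import Pool.Agent.H17.GS.Two

/-!
# Two random coefficients make algebraic numbers normal beyond their height

Earlier results on almost all algebraic numbers of degree `d` and height `H` average over all the `d + 1`
coefficients of the polynomial, so they say nothing about thin families such as the algebraic integers (leading
coefficient one), the roots of trinomials `x ^ d + a x + b`, or any family of polynomials in which most of the
coefficients are prescribed. Here only the two lowest coefficients are random, and ALL the other coefficients
are arbitrary: for every real polynomial `Q` of degree at most `d` with coefficients at most `H`, for instance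
for every integral one, for all but at most `H ^ 2 exp (-√(log H))` of the pairs `(a_0, a_1)` of integers with
`|a_0|, |a_1| ≤ H`, all the real roots `x` of `Q(x) + a_1 x + a_0` with `|x| ≤ exp (√(log H))` have the
following property: in all bases `b ≥ 2`, all windows of at least `(log H) ^ (1 - γ)` consecutive digits among
the first `(log H) ^ (1 + γ) / log b` digits after the point are equidistributed up to `ε`. The two coefficients
contain `2 log H` bits, so this goes far beyond the digits which can be prescribed. The bound for the
exceptional set is uniform in the other coefficients. (Larger roots have to be excluded: the root of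
`x ^ d - H x ^ (d - 1) + a_1 x + a_0` near `H` has about `(d - 2) log H` bits equal to zero after the point.)

Proof. Let `V = ⌊√H⌋`, `v = 1 - ⌊V x⌋` and `x_c = - v / V`, so that `1 / V ≤ x - x_c ≤ 2 / V`. On the line
`(a_0, a_1) = (s + v m, r + V m)`, `m ∈ ℤ`, the value `C_0` of the polynomial at `x_c` does not change, and its
derivative at `x_c` increases by `V` in each step. With `a = - C_0 / V` and `x = x_c + a / t` the equation of
the root becomes `t - ∑ b_k t ^ (-k - 1) = m + ξ` with fixed `b_k` and `ξ`, so that `x` is a holomorphic function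
of `m` close to `x_c + a / m`, and the general theorem of `Pool.Agent.H17.GS.Gs` (mean values of Riesz products,
exponential sums with the method of Vinogradov and Korobov) applies to it for the windows whose first place `u`
satisfies `b ^ u ≥ 4 V`. The pairs with a small derivative at a root are counted with a grid. For the windows
whose last place `v` satisfies `b ^ v ≤ H ^ (3 / 4)` the root is replaced by a rational number with denominator
`H`, and nearly all rational numbers with this denominator are good.
-/

set_option autoImplicit false

open Polynomial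

namespace Pool.Agent.Results.MP_f2f914_nt.TwoRandomCoefficients

/-- The discrepancy of the points `y b ^ i`, `u < i ≤ v`, modulo one is at most `ε`: for all
intervals `[α, β)` in `[0, 1]` the number of `u < i ≤ v` for which the fractional part of `y b ^ i` lies
in `[α, β)` differs from `(β - α) (v - u)` by at most `ε (v - u)`. -/
def DiscrepancyAtMost (y : ℝ) (b u v : ℕ) (ε : ℝ) : Prop :=
  ∀ α β : ℝ, 0 ≤ α → α < β → β ≤ 1 →
    |(({i : ℕ | u < i ∧ i ≤ v ∧ α ≤ Int.fract (y * (b : ℝ) ^ i) ∧
      Int.fract (y * (b : ℝ) ^ i) < β}.ncard : ℕ) : ℝ) - (β - α) * ((v : ℝ) - u)| ≤ ε * ((v : ℝ) - u)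

/-- There is an absolute constant `γ > 0` such that for all `d` and `ε > 0` there is an `H₀` such that for all
`H ≥ H₀` and ALL real polynomials `Q` of degree at most `d` with coefficients at most `H` in absolute value:
for all but at most `H ^ 2 exp (-√(log H))` of the pairs `(a₀, a₁)` of integers with `|a₀|, |a₁| ≤ H`, every
real root `x` of `Q(x) + a₁ x + a₀` with `|x| ≤ exp (√(log H))` has this property: for all bases `b ≥ 2` and
all `u`, `v` with `(log H) ^ (1 - γ) ≤ v - u` and `v log b ≤ (log H) ^ (1 + γ)` the discrepancy of the points
`x b ^ i`, `u < i ≤ v`, modulo one is at most `ε`. -/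
theorem result : ∃ γ : ℝ, 0 < γ ∧ ∀ (d : ℕ) (ε : ℝ), 0 < ε → ∃ H₀ : ℕ, ∀ H : ℕ, H₀ ≤ H →
    ∀ Q : ℝ[X], Q.natDegree ≤ d → (∀ k, |Q.coeff k| ≤ H) →
      (({a : ℤ × ℤ | |a.1| ≤ H ∧ |a.2| ≤ H ∧ ∃ x : ℝ, |x| ≤ Real.exp √(Real.log H) ∧
        Q.eval x + a.2 * x + a.1 = 0 ∧ ∃ b u v : ℕ, 2 ≤ b ∧ (Real.log H) ^ (1 - γ) ≤ (v : ℝ) - u ∧
        v * Real.log b ≤ (Real.log H) ^ (1 + γ) ∧ ¬ DiscrepancyAtMost x b u v ε}.ncard : ℕ) : ℝ) ≤
      H ^ 2 * Real.exp (-√(Real.log H)) := by
  obtain ⟨γ, hγ, _, hmain⟩ := Pool.Agent.H17.GS.two
  refine ⟨γ, hγ, ?_⟩
  intro d ε hε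
  obtain ⟨H₀, hH₀⟩ := hmain d ε hε
  exact ⟨H₀, fun H hH Q hQ hQH => hH₀ H hH Q (by omega) hQH⟩

end Pool.Agent.Results.MP_f2f914_nt.TwoRandomCoefficients
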